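import Mathlib

/-!
# Vanishing of `UNil` over free edge groups (MP_8a3537_gt, folder UV): definitions

`R` is a ring with involution, `G` a group, `A = R[G]` with the involution
`∑ r_g g ↦ ∑ r_g^* g⁻¹`. An `ε`-quadratic form on `A^ι` is given by a matrix over `A`, modulo the
matrices `Z - ε Z^*`.
-/

namespace Pool.Agent.Lib.MPb6f35e.TT.UV

open Matrix

section GroupRing

variable {R G : Type*} [Ring R] [StarRing R] [Group G]

/-- The involution `∑ r_g g ↦ ∑ r_g^* g⁻¹` of `R[G]`. -/
noncomputable def conj (x : MonoidAlgebra R G) : MonoidAlgebra R G :=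
  x.coeff.sum fun g r => MonoidAlgebra.single g⁻¹ (star r)

theorem conj_coeff (x : MonoidAlgebra R G) (g : G) : (conj x).coeff g = star (x.coeff g⁻¹) := by
  classical
  unfold conj
  rw [MonoidAlgebra.coeff_finsuppSum, Finsupp.sum_apply, Finsupp.sum]
  simp only [MonoidAlgebra.coeff_single, Finsupp.single_apply]
  rw [Finset.sum_eq_single g⁻¹]
  · simp
  · intro b _ hb
    rw [if_neg]
    intro h
    exact hb (by rw [← h, inv_inv])
  · intro h
    simp only [Finsupp.mem_support_iff, not_not] at h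
    simp [h]

theorem conj_single (g : G) (r : R) :
    conj (MonoidAlgebra.single g r) = MonoidAlgebra.single g⁻¹ (star r) := by
  unfold conj
  rw [MonoidAlgebra.coeff_single, Finsupp.sum_single_index]
  simp

theorem conj_add (x y : MonoidAlgebra R G) : conj (x + y) = conj x + conj y := by
  ext g
  simp only [conj_coeff, MonoidAlgebra.coeff_add, Finsupp.add_apply, star_add]

theorem conj_conj (x : MonoidAlgebra R G) : conj (conj x) = x := by
  ext g
  simp only [conj_coeff, inv_inv, star_star]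

theorem conj_mul (x y : MonoidAlgebra R G) : conj (x * y) = conj y * conj x := by
  induction x using MonoidAlgebra.induction_linear with
  | zero =>
    have : conj (0 : MonoidAlgebra R G) = 0 := by ext g; simp [conj_coeff]
    simp [this]
  | add f g hf hg => rw [add_mul, conj_add, hf, hg, conj_add, mul_add]
  | single a r =>
    induction y using MonoidAlgebra.induction_linear with
    | zero =>
      have : conj (0 : MonoidAlgebra R G) = 0 := by ext g; simp [conj_coeff]
      simp [this]
    | add f g hf hg => rw [mul_add, conj_add, hf, hg, conj_add, add_mul]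
    | single b s =>
      rw [MonoidAlgebra.single_mul_single, conj_single, conj_single, conj_single,
        MonoidAlgebra.single_mul_single, _root_.mul_inv_rev, star_mul]

/-- The involution of the group ring as a star ring structure: `star x = conj x`. -/
noncomputable instance instStarMA : StarRing (MonoidAlgebra R G) where
  star := conj
  star_involutive := conj_conj
  star_mul := conj_mul
  star_add := conj_add

theorem star_def (x : MonoidAlgebra R G) : star x = conj x := rfl

theorem star_coeff (x : MonoidAlgebra R G) (g : G) : (star x).coeff g = star (x.coeff g⁻¹) :=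
  conj_coeff x g

theorem star_single (g : G) (r : R) :
    star (MonoidAlgebra.single g r) = MonoidAlgebra.single g⁻¹ (star r) := conj_single g r

end GroupRing

/-! ### Quadratic forms -/

section Forms

variable {A : Type*} [Ring A] [StarRing A]

/-- The `ε`-quadratic forms `Ψ` on `A^ι` and `Φ` on `A^κ` are isometric:
`Φ = u^* Ψ u + Z - ε Z^*`, `u` invertible. -/
def Isometric (ε : ℤˣ) {ι κ : Type*} [Fintype ι] [DecidableEq ι] [Fintype κ] [DecidableEq κ]
    (Ψ : Matrix ι ι A) (Φ : Matrix κ κ A) : Prop :=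
  ∃ (u : Matrix ι κ A) (v : Matrix κ ι A) (Z : Matrix κ κ A),
    u * v = 1 ∧ v * u = 1 ∧ Φ = uᴴ * Ψ * u + Z - (ε : ℤ) • Zᴴ

/-- The hyperbolic form on `A^ι ⊕ A^ι`. -/
def hyp (ι A : Type*) [Fintype ι] [DecidableEq ι] [Ring A] : Matrix (ι ⊕ ι) (ι ⊕ ι) A :=
  fromBlocks 0 1 0 0

/-- `Ψ` plus a hyperbolic form is isometric to a hyperbolic form. -/
def StablyHyperbolic (ε : ℤˣ) {ι : Type*} [Fintype ι] [DecidableEq ι] (Ψ : Matrix ι ι A) : Prop :=
  ∃ m n : ℕ, Isometric ε (fromBlocks Ψ 0 0 (hyp (Fin m) A)) (hyp (Fin n) A)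

/-- The form `(ψ, 1 + μ^*; 0, χ)` on `A^n ⊕ A^n`. -/
def UF {n : Type*} [Fintype n] [DecidableEq n] (ψ μ χ : Matrix n n A) : Matrix (n ⊕ n) (n ⊕ n) A :=
  fromBlocks ψ (1 + μᴴ) 0 χ

/-- The matrix `(μ, ε b; a, μ^*)`. With `a = ψ + ε ψ^*`, `b = χ + ε χ^*` and `Ψ = UF ψ μ χ` one has
`Ψ + ε Ψ^* = (0, 1; ε, 0) (1 + nu ε a μ b)`. -/
def nu (ε : ℤˣ) {n : Type*} [Fintype n] [DecidableEq n] (a μ b : Matrix n n A) :
    Matrix (n ⊕ n) (n ⊕ n) A :=
  fromBlocks μ ((ε : ℤ) • b) a μᴴ

end Forms

/-- All entries of the matrix `M` over `R[G]` are supported in `X`. -/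
def SuppIn {R G : Type*} [Semiring R] {m n : Type*} (X : Set G)
    (M : Matrix m n (MonoidAlgebra R G)) : Prop :=
  ∀ i j g, (M i j).coeff g ≠ 0 → g ∈ X

/-- (FP) Every matrix over `S` is a product `i p`, where `i` is injective on columns, and the rows
of `p` are a basis of the annihilator of the kernel of `p`. -/
def FP (S : Type*) [Ring S] : Prop :=
  ∀ (m n : ℕ) (L : Matrix (Fin m) (Fin n) S),
    ∃ (r : ℕ) (i : Matrix (Fin m) (Fin r) S) (p : Matrix (Fin r) (Fin n) S),
      L = i * p ∧ (∀ x : Fin r → S, i *ᵥ x = 0 → x = 0) ∧ (∀ z : Fin r → S, z ᵥ* p = 0 → z = 0) ∧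
      ∀ y : Fin n → S, (∀ k : Fin n → S, p *ᵥ k = 0 → y ⬝ᵥ k = 0) → ∃ z : Fin r → S, y = z ᵥ* p

end Pool.Agent.Lib.MPb6f35e.TT.UV
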